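import Pool.Agent.Lib.MP_baa34e_lc.H81.Final
import Pool.Agent.Lib.MP_baa34e_lc.H90.Chain

namespace Pool.Agent.Lib.MP_baa34e_lc.H16

open Cardinal Filter Set Topology
open Pool.Agent.Lib.MP_baa34e_lc

abbrev C := ℕ → Bool

/-- `D` is contained in a `Gδ` set missing `E` -/
def Sep (D E : Set C) : Prop := ∃ G, IsGδ G ∧ D ⊆ G ∧ Disjoint G E

/-- every subset of size below `κ` has a `Gδ` hull with fewer than `κ` points of the set -/
def Hull (κ : Cardinal.{0}) (B : Set C) : Prop :=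
  ∀ D ⊆ B, #D < κ → ∃ G, IsGδ G ∧ D ⊆ G ∧ #(G ∩ B : Set C) < κ

lemma Hull.transfer {κ : Cardinal.{0}} {B Z : Set C} (h : Hull κ B) (φ : B ≃ₜ Z) :
    Hull κ Z := by
  intro D hD hDc
  let D' : Set C := Subtype.val '' (φ ⁻¹' (Subtype.val ⁻¹' D))
  have hD'c : #D' < κ := by
    refine lt_of_le_of_lt ?_ hDc
    refine mk_image_le.trans ?_
    refine (mk_preimage_of_injective _ _ φ.injective).trans ?_
    exact mk_preimage_of_injective _ _ Subtype.val_injective
  obtain ⟨G, hG, hDG, hGc⟩ := h D' (by rintro _ ⟨x, -, rfl⟩; exact x.2) hD'c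
  have h1 : IsGδ (φ.symm ⁻¹' (Subtype.val ⁻¹' G) : Set Z) :=
    IsGδ.preimage φ.symm.continuous (IsGδ.preimage continuous_subtype_val hG)
  obtain ⟨G', hG', hG'e⟩ := H90.exists_Gδ_ext h1
  refine ⟨G', hG', fun x hx => ?_, lt_of_le_of_lt ?_ hGc⟩
  · have : (⟨x, hD hx⟩ : Z) ∈ Subtype.val ⁻¹' G' := by
      rw [hG'e]
      exact hDG ⟨φ.symm ⟨x, hD hx⟩, by simpa using hx, rfl⟩
    exact this
  · refine mk_le_of_injective (f := fun x : (G' ∩ Z : Set C) =>
      (⟨(φ.symm ⟨x.1, x.2.2⟩).1, ?_, (φ.symm ⟨x.1, x.2.2⟩).2⟩ : (G ∩ B : Set C))) ?_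
    · have : (⟨x.1, x.2.2⟩ : Z) ∈ Subtype.val ⁻¹' G' := x.2.1
      rw [hG'e] at this
      exact this
    · intro x y hxy
      have h1 : φ.symm ⟨x.1, x.2.2⟩ = φ.symm ⟨y.1, y.2.2⟩ :=
        Subtype.ext (Subtype.mk.inj hxy)
      have h2 := φ.symm.injective h1
      exact Subtype.ext (Subtype.mk.inj h2)

lemma bdd_of_lt {X : Type} (h : #X < H90.boundingNumber) : H81.Bdd X := by
  intro g
  by_contra hn
  have h1 : H90.boundingNumber ≤ #(range g) := by
    refine csInf_le' ⟨range g, rfl, ?_⟩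
    rintro ⟨f, hf⟩
    exact hn ⟨f, fun x => hf _ ⟨x, rfl⟩⟩
  exact absurd (h1.trans mk_range_le) (not_le.2 h)

lemma mk_Iic_lt {l : Cardinal.{0}} (hl : ℵ₀ < l) (i : l.ord.ToType) : #(Iic i) < l := by
  have h1 : #(Iio i) < l := mk_Iio_toType_ord_lt i
  rw [← Iio_insert]
  exact mk_insert_le.trans_lt (add_lt_of_lt hl.le h1 (one_lt_aleph0.trans hl))

lemma exists_bound {l : Cardinal.{0}} (hl : ℵ₀ < l) (hr : l.IsRegular) {T : Set l.ord.ToType}
    (hT : #T < l) : ∃ i, ∀ j ∈ T, j < i := by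
  by_contra hn
  push Not at hn
  have h1 : (univ : Set l.ord.ToType) ⊆ ⋃ j : T, Iic j.1 := by
    intro i _
    obtain ⟨j, hj, hij⟩ := hn i
    exact mem_iUnion.2 ⟨⟨j, hj⟩, hij⟩
  have h2 : #(⋃ j : T, Iic j.1) < l :=
    (card_iUnion_lt_iff_forall_of_isRegular hr hT).2 fun j => mk_Iic_lt hl j
  have h3 := (mk_le_mk_of_subset h1).trans_lt h2
  rw [mk_univ, mk_ord_toType] at h3
  exact lt_irrefl _ h3

/-- a dense set with small hulls, from a well-ordered chain of functions -/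
lemma exists_seed {l : Cardinal.{0}} (hl : ℵ₀ < l) (hr : l.IsRegular)
    (hb : l ≤ H90.boundingNumber) : ∃ B, H90.KDense l B ∧ Hull l B := by
  classical
  let I := l.ord.ToType
  have hI : #I = l := mk_ord_toType l
  obtain ⟨f, hf⟩ := H81.exists_chain (I := I) fun i =>
    bdd_of_lt ((mk_Iio_toType_ord_lt i).trans_le hb)
  let a : I → C := fun i k => decide ((Nat.unpair k).2 < f i (Nat.unpair k).1)
  have ha : ∀ i n m, a i (Nat.pair n m) = false ↔ f i n ≤ m := by
    intro i n m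
    simp [a]
  let G : I → Set C := fun i => {y | ∃ᶠ n in atTop, y (Nat.pair n (f i n)) = false}
  have hG : ∀ i, IsGδ (G i) := by
    intro i
    have : G i = ⋂ N : ℕ, ⋃ n, ⋃ _ : N ≤ n, {y : C | y (Nat.pair n (f i n)) = false} := by
      ext y
      simp only [G, mem_ofPred_eq, frequently_atTop, mem_iInter, mem_iUnion, exists_prop]
    rw [this]
    refine IsGδ.iInter_of_isOpen fun N => isOpen_iUnion fun n => isOpen_iUnion fun _ => ?_
    exact (isOpen_discrete ({false} : Set Bool)).preimage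
      (continuous_apply (A := fun _ : ℕ => Bool) (Nat.pair n (f i n)))
  have hmem : ∀ i j (y : C), y =ᶠ[atTop] a j → (y ∈ G i ↔ j ≤ i) := by
    intro i j y hy
    have ht : Tendsto (fun n => Nat.pair n (f i n)) atTop atTop :=
      tendsto_atTop_mono (fun n => Nat.left_le_pair n _) tendsto_id
    have h1 : ∀ᶠ n in atTop, (y (Nat.pair n (f i n)) = false ↔ f j n ≤ f i n) := by
      filter_upwards [ht.eventually hy] with n hn
      rw [hn, ha]
    constructor
    · intro h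
      by_contra hlt
      obtain ⟨n, h2, h3, h4⟩ := (Frequently.and_eventually h (h1.and (hf j i (not_le.1 hlt)))).exists
      have := h3.1 h2
      omega
    · intro h
      refine Eventually.frequently ?_
      rcases h.lt_or_eq with h | rfl
      · filter_upwards [h1, hf i j h] with n h2 h3 using h2.2 h3.le
      · filter_upwards [h1] with n h2 using h2.2 le_rfl
  have hai : Function.Injective a := by
    intro i j h
    apply le_antisymm
    · rw [← hmem j i (a i) EventuallyEq.rfl, h, hmem j j (a j) EventuallyEq.rfl]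
    · rw [← hmem i j (a j) EventuallyEq.rfl, ← h, hmem i i (a i) EventuallyEq.rfl]
  refine ⟨H90.fm (range a), H90.kdense_fm hl ((mk_range_eq a hai).trans hI), fun D hD hDc => ?_⟩
  have hidx : ∀ x : D, ∃ i, x.1 =ᶠ[atTop] a i := by
    intro x
    obtain ⟨_, ⟨i, rfl⟩, h⟩ := hD x.2
    exact ⟨i, h⟩
  choose idx hidx using hidx
  obtain ⟨i, hi⟩ := exists_bound hl hr (T := range idx) (mk_range_le.trans_lt hDc)
  refine ⟨G i, hG i, fun x hx => (hmem i _ x (hidx ⟨x, hx⟩)).2 (hi _ ⟨_, rfl⟩).le, ?_⟩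
  refine lt_of_le_of_lt (mk_le_mk_of_subset (t := H90.fm (a '' Iic i)) ?_) ?_
  · rintro x ⟨hx, _, ⟨j, rfl⟩, h⟩
    exact ⟨a j, ⟨j, (hmem i j x h).1 hx, rfl⟩, h⟩
  · exact H90.mk_fm_lt hl (mk_image_le.trans_lt (mk_Iic_lt hl i))

lemma hull_all {l : Cardinal.{0}} (hl : ℵ₀ < l) (hBA : H90.BAminus l) {B : Set C}
    (hB : H90.KDense l B) (hH : Hull l B) {Z : Set C} (hZ : #Z ≤ l) : Hull l Z := by
  obtain ⟨φ⟩ := hBA B (B ∪ Z) hB (H81.KDense.union hl.le hB hZ)
  intro D hD hDc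
  obtain ⟨G, h1, h2, h3⟩ := hH.transfer φ D (hD.trans subset_union_right) hDc
  exact ⟨G, h1, h2,
    (mk_le_mk_of_subset (inter_subset_inter_right _ subset_union_right)).trans_lt h3⟩

lemma exists_rec {I : Type} [LinearOrder I] [WellFoundedLT I] (step : I → Set C → Set C) :
    ∃ F : I → Set C, ∀ i, F i = step i (⋃ j : Iio i, F j) := by
  let G : (i : I) → ((j : I) → j < i → Set C) → Set C :=
    fun i g => step i (⋃ j : Iio i, g j.1 j.2)
  exact ⟨(wellFounded_lt (α := I)).fix G, fun i => (wellFounded_lt (α := I)).fix_eq G i⟩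

/-- a small set is separated from every small set outside a small exceptional set -/
lemma exists_exc {l ν : Cardinal.{0}} (hl : ℵ₀ < l) (hν : ν < l)
    (hH : ∀ Z : Set C, #Z ≤ l → Hull l Z) {D : Set C} (hD : #D < l) :
    ∃ Y : Set C, #Y < l ∧ ∀ E : Set C, #E ≤ ν → Disjoint E Y → Sep D E := by
  classical
  by_contra hn
  push Not at hn
  choose! e he1 he2 he3 using hn
  let I := l.ord.ToType
  have hI : #I = l := mk_ord_toType l
  obtain ⟨F, hF⟩ := exists_rec (I := I) fun _ W => if #W < l then e W else ∅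
  have h1 : ∀ i, #(F i) ≤ ν := by
    intro i
    rw [hF i]
    split_ifs with h
    · exact he1 _ h
    · simp
  have h2 : ∀ i : I, #(⋃ j : Iio i, F j) < l := by
    intro i
    refine (mk_iUnion_le _).trans_lt (mul_lt_of_lt hl.le (mk_Iio_toType_ord_lt i) ?_)
    exact lt_of_le_of_lt (ciSup_le' fun j => h1 _) hν
  have h3 : ∀ i, F i = e (⋃ j : Iio i, F j) := fun i => by rw [hF i, if_pos (h2 i)]
  have hZ : #(D ∪ ⋃ i, F i : Set C) ≤ l := by
    refine (mk_union_le _ _).trans (add_le_of_le hl.le hD.le ?_)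
    refine (mk_iUnion_le _).trans ?_
    rw [hI]
    exact (mul_le_mul' le_rfl (ciSup_le' fun j => (h1 j).trans hν.le)).trans (mul_eq_self hl.le).le
  obtain ⟨G, g1, g2, g3⟩ := hH _ hZ D subset_union_left hD
  have h4 : ∀ i, ∃ z, z ∈ G ∧ z ∈ F i := by
    intro i
    by_contra hz
    push Not at hz
    refine he3 _ (h2 i) ⟨G, g1, g2, ?_⟩
    rw [← h3 i]
    exact Set.disjoint_left.2 hz
  choose z hz1 hz2 using h4
  have h5 : ∀ i j, j < i → z i ≠ z j := by
    intro i j hji h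
    have := he2 _ (h2 i)
    rw [← h3 i] at this
    exact Set.disjoint_left.1 this (hz2 i) (mem_iUnion.2 ⟨⟨j, hji⟩, h ▸ hz2 j⟩)
  have h6 : #I ≤ #(G ∩ (D ∪ ⋃ i, F i) : Set C) := by
    refine mk_le_of_injective (f := fun i => ⟨z i, hz1 i, Or.inr (mem_iUnion.2 ⟨i, hz2 i⟩)⟩) ?_
    intro i j h
    have h' : z i = z j := congrArg Subtype.val h
    rcases lt_trichotomy i j with hl' | hl' | hl'
    · exact absurd h'.symm (h5 j i hl')
    · exact hl'
    · exact absurd h' (h5 i j hl')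
  exact absurd (hI.ge.trans h6) (not_le.2 g3)

/-- a dense set whose small subsets are separated from all small sets outside it -/
lemma exists_closed {l ν : Cardinal.{0}} (hl : ℵ₀ < l) (hr : l.IsRegular) (hν : ν < l)
    (hH : ∀ Z : Set C, #Z ≤ l → Hull l Z) {B : Set C} (hB : H90.KDense l B) :
    ∃ Y : Set C, H90.KDense l Y ∧
      ∀ D ⊆ Y, #D < l → ∀ E : Set C, #E ≤ ν → Disjoint E Y → Sep D E := by
  classical
  have h0 : ∀ D : Set C, ∃ Y : Set C, #Y < l ∧
      (#D < l → ∀ E : Set C, #E ≤ ν → Disjoint E Y → Sep D E) := by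
    intro D
    by_cases hD : #D < l
    · obtain ⟨Y, h1, h2⟩ := exists_exc hl hν hH hD
      exact ⟨Y, h1, fun _ => h2⟩
    · exact ⟨∅, by simpa using aleph0_pos.trans hl, fun h => absurd h hD⟩
  choose ex hex1 hex2 using h0
  let I := l.ord.ToType
  have hI : #I = l := mk_ord_toType l
  obtain ⟨b⟩ : Nonempty (I ≃ B) := Cardinal.eq.1 (hI.trans (H81.KDense.card hB).symm)
  obtain ⟨F, hF⟩ := exists_rec (I := I) fun i W => insert (b i).1 (ex W)
  have h1 : ∀ i, #(F i) < l := by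
    intro i
    rw [hF i]
    exact mk_insert_le.trans_lt (add_lt_of_lt hl.le (hex1 _) (one_lt_aleph0.trans hl))
  have h2 : ∀ i : I, #(⋃ j : Iio i, F j) < l := fun i =>
    (card_iUnion_lt_iff_forall_of_isRegular hr (mk_Iio_toType_ord_lt i)).2 fun j => h1 j
  have hY : #(⋃ i, F i : Set C) ≤ l := by
    refine (mk_iUnion_le _).trans ?_
    rw [hI]
    exact (mul_le_mul' le_rfl (ciSup_le' fun j => (h1 j).le)).trans (mul_eq_self hl.le).le
  have hBY : B ⊆ ⋃ i, F i := by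
    intro x hx
    refine mem_iUnion.2 ⟨b.symm ⟨x, hx⟩, ?_⟩
    rw [hF]
    simp
  refine ⟨⋃ i, F i, ?_, fun D hD hDc E hE hEY => ?_⟩
  · have := H81.KDense.union hl.le hB hY
    rwa [union_eq_self_of_subset_left hBY] at this
  · have h3 : ∀ x : D, ∃ i, x.1 ∈ F i := fun x => mem_iUnion.1 (hD x.2)
    choose idx hidx using h3
    obtain ⟨i, hi⟩ := exists_bound hl hr (T := range idx) (mk_range_le.trans_lt hDc)
    obtain ⟨G, g1, g2, g3⟩ := hex2 _ (h2 i) E hE (hEY.mono_right (by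
      refine Subset.trans ?_ (subset_iUnion F i)
      rw [hF i]
      exact subset_insert _ _))
    refine ⟨G, g1, fun x hx => g2 (mem_iUnion.2 ⟨⟨idx ⟨x, hx⟩, hi _ ⟨_, rfl⟩⟩, hidx _⟩), g3⟩

/-- separation pulls back along a homeomorphism between dense sets -/
lemma sep_pullback {X Y : Set C} (hX : Dense X) (h : X ≃ₜ Y) {S T : Set C} (hS : S ⊆ X)
    (hT : Disjoint T X)
    (hsep : ∀ E : Set C, #E ≤ #T → Disjoint E Y →
      Sep ((fun x : X => (h x : C)) '' (Subtype.val ⁻¹' S)) E) : Sep S T := by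
  classical
  let F : C → Filter X := fun x => comap Subtype.val (𝓝 x)
  have hF : ∀ x, (F x).NeBot := fun x => (mem_closure_iff_comap_neBot (s := X)).1 (hX x)
  have hop : ∀ P : X → Prop, IsOpen {x | ∀ᶠ y in F x, P y} := by
    intro P
    simp only [F, eventually_comap]
    exact isOpen_setOfPred_eventually_nhds
  let H : X → C := fun y => (h y : C)
  have hH : Continuous H := continuous_subtype_val.comp h.continuous
  have hFX : ∀ x : X, F x.1 = 𝓝 x := fun x => (nhds_subtype X x).symm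
  let G0 : Set C := {x | ∀ k, ∃ b, ∀ᶠ y in F x, H y k = b}
  have hG0 : IsGδ G0 := by
    have : G0 = ⋂ k, ⋃ b, {x | ∀ᶠ y in F x, H y k = b} := by
      ext x; simp [G0]
    rw [this]
    exact IsGδ.iInter_of_isOpen fun k => isOpen_iUnion fun b => hop _
  have hlim : ∀ x ∈ G0, ∃ w, Tendsto H (F x) (𝓝 w) := by
    intro x hx
    choose w hw using hx
    refine ⟨w, tendsto_pi_nhds.2 fun k => ?_⟩
    exact tendsto_const_nhds.congr' ((hw k).mono fun y hy => hy.symm)
  choose! w hw using hlim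
  have hXG : X ⊆ G0 := by
    intro x hx k
    refine ⟨H ⟨x, hx⟩ k, ?_⟩
    rw [hFX ⟨x, hx⟩]
    have : Continuous fun y => H y k := (continuous_apply k).comp hH
    exact this.continuousAt.eventually ((isOpen_discrete {H ⟨x, hx⟩ k}).mem_nhds rfl)
  have hwY : ∀ x ∈ G0, w x ∈ Y → x ∈ X := by
    intro x hx hy
    have h1 : Tendsto h (F x) (𝓝 ⟨w x, hy⟩) := tendsto_subtype_rng.2 (hw x hx)
    have h2 : Tendsto (fun y : X => (h.symm (h y) : C)) (F x) (𝓝 (h.symm ⟨w x, hy⟩ : C)) :=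
      (continuous_subtype_val.comp h.symm.continuous).continuousAt.tendsto.comp h1
    simp only [Homeomorph.symm_apply_apply] at h2
    have := hF x
    rw [tendsto_nhds_unique (tendsto_comap (f := (Subtype.val : X → C)) (x := 𝓝 x)) h2]
    exact (h.symm ⟨w x, hy⟩).2
  obtain ⟨G, g1, g2, g3⟩ := hsep (w '' (T ∩ G0))
    (mk_image_le.trans (mk_le_mk_of_subset inter_subset_left)) (by
      rw [Set.disjoint_left]
      rintro _ ⟨x, hx, rfl⟩ hy
      exact Set.disjoint_left.1 hT hx.1 (hwY x hx.2 hy))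
  obtain ⟨U, hU, rfl⟩ := isGδ_iff_eq_iInter_nat.1 g1
  refine ⟨G0 ∩ ⋂ m, ⋃ K : {K : Set C // IsClosed K ∧ K ⊆ U m}, {x | ∀ᶠ y in F x, H y ∈ K.1},
    hG0.inter (IsGδ.iInter_of_isOpen fun m => isOpen_iUnion fun K => hop _), ?_, ?_⟩
  · intro x hx
    refine ⟨hXG (hS hx), mem_iInter.2 fun m => ?_⟩
    have h1 : H ⟨x, hS hx⟩ ∈ U m := mem_iInter.1 (g2 ⟨⟨x, hS hx⟩, hx, rfl⟩) m
    obtain ⟨K, ⟨k1, k2⟩, k3⟩ :=
      (closed_nhds_basis (H ⟨x, hS hx⟩)).mem_iff.1 ((hU m).mem_nhds h1)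
    refine mem_iUnion.2 ⟨⟨K, k2, k3⟩, ?_⟩
    change ∀ᶠ y in F x, H y ∈ K
    rw [hFX ⟨x, hS hx⟩]
    exact hH.continuousAt.eventually k1
  · rw [Set.disjoint_left]
    rintro x ⟨hx0, hx⟩ hxT
    refine Set.disjoint_left.1 g3 (mem_iInter.2 fun m => ?_) ⟨x, ⟨hxT, hx0⟩, rfl⟩
    obtain ⟨K, hK⟩ := mem_iUnion.1 (mem_iInter.1 hx m)
    have := hF x
    exact K.2.2 (K.2.1.mem_of_tendsto (hw x hx0) hK)

lemma kdense_diff {l : Cardinal.{0}} (hl : ℵ₀ < l) {B A : Set C} (hB : H90.KDense l B)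
    (hA : #A < l) : H90.KDense l (B \ A) := by
  intro U hU hne
  apply le_antisymm
  · rw [← hB U hU hne]
    exact mk_le_mk_of_subset (inter_subset_inter_left _ sdiff_subset)
  · by_contra hlt
    have h1 : B ∩ U ⊆ ((B \ A) ∩ U) ∪ A := by
      intro x hx
      by_cases h : x ∈ A
      · exact Or.inr h
      · exact Or.inl ⟨⟨hx.1, h⟩, hx.2⟩
    have h2 := ((mk_le_mk_of_subset h1).trans (mk_union_le _ _)).trans_lt
      (add_lt_of_lt hl.le (not_le.1 hlt) hA)
    exact h2.ne (hB U hU hne)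

lemma dense_of_kdense {l : Cardinal.{0}} (hl : ℵ₀ < l) {B : Set C} (hB : H90.KDense l B) :
    Dense B := by
  rw [dense_iff_inter_open]
  intro U hU hne
  rw [inter_comm, ← Set.nonempty_coe_sort, ← mk_ne_zero_iff, hB U hU hne]
  exact (aleph0_pos.trans hl).ne'

theorem qset_of_hull {l : Cardinal.{0}} (hl : ℵ₀ < l) (hr : l.IsRegular) (hBA : H90.BAminus l)
    {B : Set C} (hB : H90.KDense l B) (hH : Hull l B) {A : Set C} (hA : #A < l) :
    H81.IsQSet A := by
  intro S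
  obtain ⟨Y, hY, hsep⟩ := exists_closed hl hr hA (fun Z hZ => hull_all hl hBA hB hH hZ) hB
  have hS : #(Subtype.val '' S : Set C) < l :=
    (mk_le_mk_of_subset (Subtype.coe_image_subset A S)).trans_lt hA
  have hX : H90.KDense l ((B \ A) ∪ Subtype.val '' S) :=
    H81.KDense.union hl.le (kdense_diff hl hB hA) hS.le
  obtain ⟨h⟩ := hBA _ _ hX hY
  obtain ⟨G, g1, g2, g3⟩ := sep_pullback (dense_of_kdense hl hX) h (S := Subtype.val '' S)
    (T := A \ Subtype.val '' S) subset_union_right (by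
      rw [Set.disjoint_left]
      rintro x hx (hx' | hx')
      · exact hx'.2 hx.1
      · exact hx.2 hx') (fun E hE hEY => hsep _ (by rintro _ ⟨x, -, rfl⟩; exact (h x).2)
        ((mk_image_le.trans (mk_preimage_of_injective _ _ Subtype.val_injective)).trans_lt hS) E
        (hE.trans (mk_le_mk_of_subset sdiff_subset)) hEY)
  have : S = Subtype.val ⁻¹' G := by
    ext x
    constructor
    · intro hx
      exact g2 ⟨x, hx, rfl⟩
    · intro hx
      by_contra hxS
      refine Set.disjoint_left.1 g3 hx ⟨x.2, ?_⟩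
      rintro ⟨y, hy, e⟩
      exact hxS (Subtype.ext e ▸ hy)
  rw [this]
  exact g1.preimage continuous_subtype_val

theorem lt_q0 {l : Cardinal.{0}} (hl : ℵ₀ < l) (hr : l.IsRegular)
    (hb : l ≤ H90.boundingNumber) (hBA : H90.BAminus l) : l < H81.q0 := by
  obtain ⟨B, hB, hH⟩ := exists_seed hl hr hb
  obtain ⟨A, hA, hn⟩ := csInf_mem H81.q0_nonempty
  have h1 : l ≤ H81.q0 := by
    by_contra hlt
    exact hn (qset_of_hull hl hr hBA hB hH (hA.trans_lt (not_le.1 hlt)))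
  refine lt_of_le_of_ne h1 fun h => H81.not_ba_q0 ?_
  rw [← h]
  exact hBA

theorem mono {κ l : Cardinal.{0}} (hκ : ℵ₀ < κ) (hκl : κ < l) (hr : l.IsRegular)
    (hb : l ≤ H90.boundingNumber) (hBA : H90.BAminus l) : H90.BAminus κ :=
  (H81.main l).2 (lt_q0 (hκ.trans hκl) hr hb hBA) κ hκ hκl.le

end Pool.Agent.Lib.MP_baa34e_lc.H16
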